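import Pool.Agent.R926.KI.Gen
import Pool.Agent.R926.KI.All

/-!
# The Erdős–Szemerédi conjecture for sets covered by few short progressions, for all `k`

`A ^ k` denotes the set of the products of `k` elements of `A`.

1. For EVERY finite set `A` of positive integers, the number of the solutions of
   `x_1 ⋯ x_k = y_1 ⋯ y_k` in `A` for which all the ratios `x_i / y_i` are fractions with numerator
   and denominator at most `H` is at most `C (H |A|) ^ ε |A| ^ k`.
2. Let the elements of a finite set `A` of positive integers be coloured with `K` colours in such a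
   way that two different elements of the same colour have greatest common divisor at most `L`. Then
   `|A ^ k| ≥ c (L |A|) ^ (- ε) min (|A| ^ k, (|A| / K) ^ (2 k))`.
3. If a finite set `A` of integers is covered by `T` arithmetic progressions of at most `|A| ^ D + 1`
   terms, each with coprime first term and difference (for instance by `T` intervals of length
   `|A| ^ D`), then `|A ^ k| ≥ c |A| ^ (- ε) min (|A| ^ k, (|A| / T) ^ (2 k))`.
4. In particular `|A ^ k| ≥ c |A| ^ (k - ε)` if `T ^ 2 ≤ |A|`, so that the `k`-fold conjecture holds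
   for these sets, for every `k`. The positions and the differences of the progressions are
   arbitrary.

The case `k = 2` of (1), (2) and (3), (4) for intervals are in the starting result
`MP_cc0731_co.FewShortIntervals`. The argument there (which determines all of a solution) does not
extend: for `k ≥ 3` the multiplicative energy of such sets is not bounded by it.

Proof of (2). Call a pair `(y, y')` bad if for some `x` in `A` both `g = (x, y)` and `(x / g, y')` are
at least the `k`-th roots of `x` and of `x / g`, and `x / g > H`, where `H` is a power of `L`. As at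
most `k` elements of one colour have such a large common divisor with a given number, there are at
most `k ^ 2 K ^ 2 |A|` bad pairs; if `K ^ 2` is at most a small multiple of `|A|` then most `k`-tuples
contain no bad pair. If two such tuples have the same product, then the largest one of all the
entries divides the product of the entries of the other tuple, and so it has a ratio of height at
most `H` with one of these entries. These two entries can be removed by a hypercontractive inequality
for the characters of small height (`core'`) and Hoelder's inequality, whatever the rest of the two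
tuples is, at the cost of a factor `(H |A|) ^ ε |A|`, and the remaining tuples again contain no bad
pair. If `K` is larger, the argument is applied to the largest colour classes.
-/

set_option autoImplicit false

namespace Pool.Agent.Results.MP_120218_co.KFoldShortProgressions

open Pool.Agent.R926.KI

theorem result :
    -- 1. every finite set
    (∀ k : ℕ, 1 ≤ k → ∀ ε : ℝ, 0 < ε → ∃ C : ℝ, 0 < C ∧ ∀ H : ℕ, 1 ≤ H → ∀ A : Finset ℕ,
      (∀ a ∈ A, a ≠ 0) →
      (Set.ncard {q : (Fin k → ℕ) × (Fin k → ℕ) | (∀ i, q.1 i ∈ A) ∧ (∀ i, q.2 i ∈ A) ∧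
        ∏ i, q.1 i = ∏ i, q.2 i ∧
        ∀ i, max (q.1 i) (q.2 i) ≤ H * Nat.gcd (q.1 i) (q.2 i)} : ℝ) ≤
        C * ((H : ℝ) * A.card) ^ ε * (A.card : ℝ) ^ k) ∧
    -- 2. colourings
    (∀ k : ℕ, ∀ ε : ℝ, 0 < ε → ∃ c : ℝ, 0 < c ∧ ∀ (A : Finset ℕ) (L : ℕ) (colour : ℕ → ℕ), 1 ≤ L →
      (∀ a ∈ A, a ≠ 0) → A.Nonempty →
      (∀ a ∈ A, ∀ b ∈ A, a ≠ b → colour a = colour b → Nat.gcd a b ≤ L) →
      c * ((L : ℝ) * A.card) ^ (-ε) *
        min ((A.card : ℝ) ^ k) (((A.card : ℝ) / (A.image colour).card) ^ (2 * k)) ≤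
        (((Fintype.piFinset fun _ : Fin k => A).image fun f => ∏ i, f i).card : ℝ)) ∧
    -- 3. progressions
    (∀ k : ℕ, ∀ ε : ℝ, 0 < ε → ∀ D : ℕ, ∃ c : ℝ, 0 < c ∧
      ∀ (A : Finset ℤ) (ι : Type) (T : Finset ι) (a d : ι → ℤ), A.Nonempty →
      (∀ i ∈ T, IsCoprime (a i) (d i)) →
      (∀ x ∈ A, ∃ i ∈ T, ∃ j : ℕ, j ≤ A.card ^ D ∧ x = a i + j * d i) →
      c * (A.card : ℝ) ^ (-ε) *
        min ((A.card : ℝ) ^ k) (((A.card : ℝ) / T.card) ^ (2 * k)) ≤
        (((Fintype.piFinset fun _ : Fin k => A).image fun f => ∏ i, f i).card : ℝ)) ∧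
    -- 4. at most `|A| ^ (1 / 2)` progressions, or intervals
    (∀ k : ℕ, ∀ ε : ℝ, 0 < ε → ∀ D : ℕ, ∃ c : ℝ, 0 < c ∧
      (∀ (A : Finset ℤ) (ι : Type) (T : Finset ι) (a d : ι → ℤ), A.Nonempty →
        (∀ i ∈ T, IsCoprime (a i) (d i)) →
        (∀ x ∈ A, ∃ i ∈ T, ∃ j : ℕ, j ≤ A.card ^ D ∧ x = a i + j * d i) →
        T.card ^ 2 ≤ A.card →
        c * (A.card : ℝ) ^ ((k : ℝ) - ε) ≤
          (((Fintype.piFinset fun _ : Fin k => A).image fun f => ∏ i, f i).card : ℝ)) ∧
      ∀ A T : Finset ℤ, A.Nonempty →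
        (∀ x ∈ A, ∃ t ∈ T, t ≤ x ∧ x ≤ t + (A.card : ℤ) ^ D) → T.card ^ 2 ≤ A.card →
        c * (A.card : ℝ) ^ ((k : ℝ) - ε) ≤
          (((Fintype.piFinset fun _ : Fin k => A).image fun f => ∏ i, f i).card : ℝ)) := by
  classical
  have h3 : ∀ k : ℕ, ∀ ε : ℝ, 0 < ε → ∀ D : ℕ, ∃ c : ℝ, 0 < c ∧
      ∀ (A : Finset ℤ) (ι : Type) (T : Finset ι) (a d : ι → ℤ), A.Nonempty →
        (∀ i ∈ T, IsCoprime (a i) (d i)) →
        (∀ x ∈ A, ∃ i ∈ T, ∃ j : ℕ, j ≤ A.card ^ D ∧ x = a i + j * d i) →
        T.card ^ 2 ≤ A.card →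
        c * (A.card : ℝ) ^ ((k : ℝ) - ε) ≤
          (((Fintype.piFinset fun _ : Fin k => A).image fun f => ∏ i, f i).card : ℝ) := by
    intro k ε hε D
    obtain ⟨c, hc, h⟩ := int_gen k ε hε D
    refine ⟨c, hc, fun A ι T a d hA hcop hcov hT => ?_⟩
    have h1 := h A ι T a d hA hcop hcov
    have hn : (0 : ℝ) < A.card := by exact_mod_cast hA.card_pos
    have hT0 : (0 : ℝ) < T.card := by
      obtain ⟨x, hx⟩ := hA
      obtain ⟨i, hi, _⟩ := hcov x hx
      exact_mod_cast Finset.card_pos.2 ⟨i, hi⟩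
    have hT' : (T.card : ℝ) ^ 2 ≤ A.card := by exact_mod_cast hT
    have hmin : min ((A.card : ℝ) ^ k) (((A.card : ℝ) / T.card) ^ (2 * k)) = (A.card : ℝ) ^ k := by
      refine min_eq_left ?_
      rw [pow_mul]
      refine pow_le_pow_left₀ hn.le ?_ k
      rw [div_pow, le_div_iff₀ (by positivity)]
      calc (A.card : ℝ) * (T.card : ℝ) ^ 2 ≤ A.card * A.card :=
            mul_le_mul_of_nonneg_left hT' hn.le
        _ = (A.card : ℝ) ^ 2 := by ring
    rw [hmin, mul_assoc, ← Real.rpow_natCast (A.card : ℝ) k, ← Real.rpow_add hn] at h1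
    have e : -ε + (k : ℝ) = (k : ℝ) - ε := by ring
    rw [e] at h1
    exact h1
  refine ⟨?_, ?_, ?_, ?_⟩
  · intro k hk ε hε
    obtain ⟨C, hC, h⟩ := all_close k hk ε hε
    refine ⟨C, hC, fun H hH A hA => ?_⟩
    have h1 := h H hH A hA
    have h2 : {q : (Fin k → ℕ) × (Fin k → ℕ) | (∀ i, q.1 i ∈ A) ∧ (∀ i, q.2 i ∈ A) ∧
        ∏ i, q.1 i = ∏ i, q.2 i ∧
        ∀ i, max (q.1 i) (q.2 i) ≤ H * Nat.gcd (q.1 i) (q.2 i)} =
        ((AC A k H : Finset ((Fin k → ℕ) × (Fin k → ℕ))) : Set _) := by
      ext q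
      unfold AC Close pr
      simp only [Set.mem_setOf_eq, Finset.coe_filter, Finset.mem_product, Fintype.mem_piFinset,
        max_le_iff]
      tauto
    rw [h2, Set.ncard_coe_finset]
    exact h1
  · intro k ε hε
    obtain ⟨c, hc, _, h⟩ := nat_gen k ε hε
    refine ⟨c, hc, fun A L col hL hA hAne hcol => ?_⟩
    have h1 := h ℕ inferInstance A L col hL hA hAne hcol
    unfold PS pr at h1
    convert h1
  · intro k ε hε D
    obtain ⟨c, hc, h⟩ := int_gen k ε hε D
    refine ⟨c, hc, fun A ι T a d hA hcop hcov => ?_⟩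
    have h1 := h A ι T a d hA hcop hcov
    unfold PZ at h1
    convert h1
  · intro k ε hε D
    obtain ⟨c, hc, h⟩ := h3 k ε hε D
    refine ⟨c, hc, fun A ι T a d hA hcop hcov hT => ?_, fun A T hA hcov hT => ?_⟩
    · have h1 := h A ι T a d hA hcop hcov hT
      convert h1
    · have h1 := h A ℤ T (fun t => t) (fun _ => 1) hA (fun _ _ => isCoprime_one_right) (by
        intro x hx
        obtain ⟨t, ht, h1, h2⟩ := hcov x hx
        refine ⟨t, ht, (x - t).toNat, ?_, ?_⟩
        · have h3 : ((x - t).toNat : ℤ) ≤ ((A.card ^ D : ℕ) : ℤ) := by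
            rw [Int.toNat_of_nonneg (by linarith)]
            push_cast
            linarith
          exact_mod_cast h3
        · rw [Int.toNat_of_nonneg (by linarith)]
          ring) hT
      convert h1

end Pool.Agent.Results.MP_120218_co.KFoldShortProgressions
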