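import Mathlib
import Pool.Agent.Y359.PE.Runs

/-!
# The Erdős–Szemerédi conjecture for unions of long progressions, and products of shifts

For every `k` and `ε` the `k`-fold product set of a finite set `A` of integers has at least
`c |A| ^ (k - ε)` elements (so `A` satisfies the conjectured bound for the maximum of the numbers of
`k`-fold sums and products) in each of the following cases.

1. `A` is regular with respect to prime powers up to a small error: for every prime power `q` at most
   `(K / q + 1 / L) |A|` elements of `A` are divisible by `q`, where `L` is large in terms of `k`,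
   `ε`, `K`. (No condition on composite moduli, and none on moduli larger than `K L`, except that at
   most the proportion `2 / L` of the elements is divisible by them.)
2. `A` is a union of runs of `L` consecutive integers.
3. `A` is a union of arithmetic progressions of length at least `L` with coprime first term and
   difference (the differences may be different and arbitrarily large) such that no element lies in
   more than `D` of them; `L` depends on `k`, `ε` and `D`.

4. For every nonempty finite set `S` of integers there are shifts `t i < L` (`i < k`), with `L`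
   depending only on `k` and `ε`, such that the set of the products of the `f i + t i`, `f i ∈ S`, has
   at least `c |S| ^ (k - ε)` elements.

Proof: the theorem `primepow` of the starting library `Y359.PE` (entropy of the vector of the
valuations of a product of independent elements, exposed prime by prime: a prime which is not popular
contributes almost the sum of the entropies, and the small primes are handled by bounding the number
of the parts composed of them); multiples of a prime power in runs and progressions are counted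
directly.
-/

set_option autoImplicit false

namespace Pool.Agent.Results.MP_120218_co.RegularInPrimePowers

open Finset Pool.Agent.Y359.PE

theorem result :
    (∀ k : ℕ, 1 ≤ k → ∀ K ε : ℝ, 1 ≤ K → 0 < ε → ε ≤ 1 → ∃ L c : ℝ, 1 ≤ L ∧ 0 < c ∧
      ∀ A : Finset ℤ, A.Nonempty →
      (∀ q : ℕ, IsPrimePow q →
        ((A.filter fun a : ℤ => (q : ℤ) ∣ a).card : ℝ) ≤ (K / q + 1 / L) * A.card) →
      c * (A.card : ℝ) ^ ((k : ℝ) - ε) ≤
        ((Fintype.piFinset fun _ : Fin k => A).image fun f => ∏ i, f i).card) ∧
    (∀ k : ℕ, 1 ≤ k → ∀ ε : ℝ, 0 < ε → ε ≤ 1 → ∃ (L : ℕ) (c : ℝ), 1 ≤ L ∧ 0 < c ∧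
      ∀ A : Finset ℤ, A.Nonempty →
      (∀ a ∈ A, ∃ b : ℤ, b ≤ a ∧ a < b + L ∧ Finset.Ico b (b + L) ⊆ A) →
      c * (A.card : ℝ) ^ ((k : ℝ) - ε) ≤
        ((Fintype.piFinset fun _ : Fin k => A).image fun f => ∏ i, f i).card) ∧
    (∀ k : ℕ, 1 ≤ k → ∀ D : ℕ, 1 ≤ D → ∀ ε : ℝ, 0 < ε → ε ≤ 1 →
      ∃ (L : ℕ) (c : ℝ), 1 ≤ L ∧ 0 < c ∧
      ∀ (A : Finset ℤ) (ι : Type) (I : Finset ι) (a d : ι → ℤ) (n : ι → ℕ), A.Nonempty →
      (∀ i ∈ I, d i ≠ 0 ∧ IsCoprime (a i) (d i) ∧ L ≤ n i) →
      (∀ x, x ∈ A ↔ ∃ i ∈ I, ∃ j < n i, x = a i + j * d i) →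
      (∀ x ∈ A, Set.ncard {i | i ∈ I ∧ ∃ j < n i, x = a i + j * d i} ≤ D) →
      c * (A.card : ℝ) ^ ((k : ℝ) - ε) ≤
        ((Fintype.piFinset fun _ : Fin k => A).image fun f => ∏ i, f i).card) ∧
    (∀ k : ℕ, 1 ≤ k → ∀ ε : ℝ, 0 < ε → ε ≤ 1 → ∃ (L : ℕ) (c : ℝ), 0 < c ∧
      ∀ S : Finset ℤ, S.Nonempty → ∃ t : Fin k → ℕ, (∀ i, t i < L) ∧
      c * (S.card : ℝ) ^ ((k : ℝ) - ε) ≤
        ((Fintype.piFinset fun _ : Fin k => S).image fun f => ∏ i, (f i + (t i : ℤ))).card) := by
  classical
  refine ⟨?_, ?_, ?_, ?_⟩
  · intro k hk K ε hK hε hε1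
    obtain ⟨L, c, hL, hc, h⟩ := primepow k hk K ε hK hε hε1
    refine ⟨L, c, hL, hc, fun A hA hq => ?_⟩
    have := h A hA (fun q hqq => by convert hq q hqq)
    unfold pk at this
    convert this
  · intro k hk ε hε hε1
    obtain ⟨L, c, hL, hc, h⟩ := runs k hk ε hε hε1
    refine ⟨L, c, hL, hc, fun A hA hq => ?_⟩
    have := h A hA (fun a ha => by convert hq a ha)
    unfold pk at this
    convert this
  · intro k hk D hD ε hε hε1
    obtain ⟨L, c, hL, hc, h⟩ := progs k hk D hD ε hε hε1
    refine ⟨L, c, hL, hc, fun A ι I a d n hA h1 h2 h3 => ?_⟩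
    have := h A ι I a d n hA h1 h2 (fun x hx => by
      have h4 := h3 x hx
      have h5 : {i | i ∈ I ∧ ∃ j < n i, x = a i + j * d i} =
          ((I.filter fun i => ∃ j < n i, x = a i + j * d i : Finset ι) : Set ι) := by
        ext i; simp
      rw [h5, Set.ncard_coe_finset] at h4
      convert h4)
    unfold pk at this
    convert this
  · intro k hk ε hε hε1
    obtain ⟨L, c, hc, h⟩ := shifts k hk ε hε hε1
    refine ⟨L, c, hc, fun S hS => ?_⟩
    obtain ⟨t, ht, h1⟩ := h S hS
    refine ⟨t, ht, ?_⟩
    convert h1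

end Pool.Agent.Results.MP_120218_co.RegularInPrimePowers
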