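import Pool.Agent.R95.SP.Main

/-!
The second-order term in the Erdos-Szemeredi problem for `k`-fold sums and products.

For `n` integers of absolute value at most `n ^ C` the least possible size of the `k`-fold product
set is `n ^ (k - (k (C - 1) log k + o(1)) / log log n)`, for every real `C ≥ 1`. In particular
for sets contained in `[-n ^ k, n ^ k]` the least possible value of `max (|kA|, |A ^ k|)` is
`n ^ (k - (k (k - 1) log k + o(1)) / log log n)`, and the best constant `c(k, ε)` in the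
conjecture restricted to such sets is `exp (- exp ((k (k - 1) log k + o(1)) / ε))` as `ε → 0`;
the constant for all sets cannot be larger.
-/

namespace Pool.Agent.Results.MP_120218_co.SharpSecondTerm
open Finset Filter

theorem result :
    (∀ k : ℕ, 1 ≤ k → ∀ C : ℝ, 1 ≤ C → ∀ δ : ℝ, 0 < δ → ∃ n₀ : ℕ, ∀ n : ℕ, n₀ ≤ n →
      (∀ A : Finset ℤ, A.card = n → (∀ a ∈ A, |(a : ℝ)| ≤ (n : ℝ) ^ C) →
        (n : ℝ) ^ ((k : ℝ) - (k * (C - 1) * Real.log k + δ) / Real.log (Real.log n)) ≤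
          (((Fintype.piFinset fun _ : Fin k => A).image fun f => ∏ i, f i).card : ℝ)) ∧
      (∃ A : Finset ℤ, A.card = n ∧ (∀ a ∈ A, 0 < a ∧ (a : ℝ) ≤ (n : ℝ) ^ C) ∧
        (((Fintype.piFinset fun _ : Fin k => A).image fun f => ∏ i, f i).card : ℝ) ≤
          (n : ℝ) ^ ((k : ℝ) - (k * (C - 1) * Real.log k - δ) / Real.log (Real.log n)))) ∧
    (∀ k : ℕ, 2 ≤ k → ∀ δ : ℝ, 0 < δ → ∃ n₀ : ℕ, ∀ n : ℕ, n₀ ≤ n →
      ∃ A : Finset ℤ, A.card = n ∧ (∀ a ∈ A, 0 < a ∧ (a : ℝ) ≤ (n : ℝ) ^ (k : ℝ)) ∧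
        max (((Fintype.piFinset fun _ : Fin k => A).image fun f => ∑ i, f i).card : ℝ)
          (((Fintype.piFinset fun _ : Fin k => A).image fun f => ∏ i, f i).card : ℝ) ≤
          (n : ℝ) ^ ((k : ℝ) - (k * (k - 1) * Real.log k - δ) / Real.log (Real.log n))) ∧
    (∀ k : ℕ, 2 ≤ k → ∀ δ : ℝ, 0 < δ → ∃ ε₀ : ℝ, 0 < ε₀ ∧ ∀ ε : ℝ, 0 < ε → ε ≤ ε₀ →
      (∀ c : ℝ, (∀ A : Finset ℤ, A.Nonempty → c * (A.card : ℝ) ^ ((k : ℝ) - ε) ≤
        max (((Fintype.piFinset fun _ : Fin k => A).image fun f => ∑ i, f i).card : ℝ)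
          (((Fintype.piFinset fun _ : Fin k => A).image fun f => ∏ i, f i).card : ℝ)) →
        c ≤ Real.exp (-Real.exp ((k * (k - 1) * Real.log k - δ) / ε))) ∧
      ∀ A : Finset ℤ, A.Nonempty → (∀ a ∈ A, |(a : ℝ)| ≤ (A.card : ℝ) ^ (k : ℝ)) →
        Real.exp (-Real.exp ((k * (k - 1) * Real.log k + δ) / ε)) *
          (A.card : ℝ) ^ ((k : ℝ) - ε) ≤
          (((Fintype.piFinset fun _ : Fin k => A).image fun f => ∏ i, f i).card : ℝ)) := by
  refine ⟨?_, ?_, ?_⟩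
  · intro k hk C hC δ hδ
    obtain ⟨n₀, hn₀⟩ := eventually_atTop.1 ((Pool.Agent.R95.SP.low k hk C δ hC hδ).and
      (Pool.Agent.R95.SP.upZ k hk C δ hC hδ))
    exact ⟨n₀, fun n hn => hn₀ n hn⟩
  · intro k hk δ hδ
    obtain ⟨n₀, hn₀⟩ := eventually_atTop.1 (Pool.Agent.R95.SP.upSP k hk δ hδ)
    exact ⟨n₀, fun n hn => hn₀ n hn⟩
  · intro k hk δ hδ
    obtain ⟨ε₁, h1, h1'⟩ := Pool.Agent.R95.SP.const_le k hk δ hδ
    obtain ⟨ε₂, h2, h2'⟩ := Pool.Agent.R95.SP.const_ge k hk δ hδ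
    refine ⟨min ε₁ ε₂, lt_min h1 h2, fun ε hε hεle => ⟨fun c hc => ?_, fun A hA hAk => ?_⟩⟩
    · exact h1' ε hε (hεle.trans (min_le_left _ _)) c hc
    · exact h2' ε hε (hεle.trans (min_le_right _ _)) A hA hAk

end Pool.Agent.Results.MP_120218_co.SharpSecondTerm
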