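import Mathlib
import Pool.Agent.R849.SV.Main

/-!
# The Erdős–Szemerédi conjecture for sets without primes of spread valuations, and for the values of
polynomials on clustered sets

1. For all `k` and `0 < ε ≤ 1` there is a proportion `δ > 0` such that the following holds for every
   `m` with a constant `c = c(k, ε, m) > 0`. Let `A` be a finite nonempty set of nonzero integers, `P`
   a finite set of primes and `e` any function such that for every prime `p` outside `P` at most
   `δ |A|` elements `a` of `A` have `m ≤ p ^ |v_p(a) - e(p)|`. Let `D` be the number of the vectors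
   of the valuations at `P` of the elements of `A`. Then the `k`-fold product set of `A` has at least
   `c (|A| / D) ^ (k - ε)` elements. So if `A` has few `k`-fold products, then there is a prime at
   which the valuation is spread: for a positive proportion of the elements it is further than
   `log_p m` from any given integer, and this proportion does not depend on `m`; moreover the
   valuations at the primes of this kind take many values.
2. For all `k`, `ε`, `d` there is `n` such that for every `w` there is `c > 0` such that for EVERY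
   integer polynomial `f` of degree between `1` and `d` and every finite nonempty set `X` of integers
   in which every element has at least `n` elements of `X` within distance `w` (for example a union
   of runs of `n` consecutive integers) the set of the nonzero values of `f` on `X` has at least
   `c |X| ^ (k - ε)` `k`-fold products.
3. For arbitrary finite sets `X` of integers: if the set of the nonzero values of `f` on `X` has `M`
   `k`-fold products, then the number of the pairs of elements of `X` at distance at most `w` is at
   most `n |X| + C M ^ (1 / (k - ε))`, where `n` does not depend on `w` and neither `n` nor `C`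
   depends on `f` and `X`. For `f = x`: if a set `A` has at most `|A| ^ (k - 2 ε)` `k`-fold products,
   then its elements have on average at most `n + o(1)` neighbours in `A` at distance at most `w`,
   for every fixed `w`.
4. For every set `T` of at least `n` integers of diameter at most `w` and every finite nonempty set
   `S` of integers there are shifts `t i ∈ T` (`i < k`) for which the products of the `f (s i + t i)`,
   `s i ∈ S`, take at least `c |S| ^ (k - ε)` values.

Proof: entropy of the part of the vector of the valuations consisting of the coordinates at which the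
deviation is large, exposed prime by prime with the help of the starting library `Y359.PE`; the other
coordinates vanish at the primes `p ≥ m` and take boundedly many values at the small primes. For
polynomials `e(p)` is the valuation of the content, and for a primitive polynomial of degree `d`
Lagrange's formula shows that a number which is large in terms of `d` and `w` divides at most `d` of
the values in an interval of length `2 w`. For 3 remove the elements with few neighbours one by one.
-/

set_option autoImplicit false

namespace Pool.Agent.Results.MP_120218_co.SpreadValuations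

open Finset Pool.Agent.Y359.PE Pool.Agent.R849.SV

theorem result :
    (∀ k : ℕ, 1 ≤ k → ∀ ε : ℝ, 0 < ε → ε ≤ 1 → ∃ δ : ℝ, 0 < δ ∧ ∀ m : ℕ, ∃ c : ℝ, 0 < c ∧
      ∀ A : Finset ℤ, A.Nonempty → (0 : ℤ) ∉ A → ∀ (P : Finset ℕ) (e : ℕ → ℕ),
      (∀ p : ℕ, p.Prime → p ∉ P →
        ((A.filter fun a : ℤ => m ≤ p ^ ((padicValInt p a : ℤ) - e p).natAbs).card : ℝ) ≤
          δ * A.card) →
      c * ((A.card : ℝ) / (A.image fun (a : ℤ) (p : P) => a.natAbs.factorization p).card) ^
          ((k : ℝ) - ε) ≤
        ((Fintype.piFinset fun _ : Fin k => A).image fun f => ∏ i, f i).card) ∧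
    (∀ k : ℕ, 1 ≤ k → ∀ ε : ℝ, 0 < ε → ε ≤ 1 → ∀ d : ℕ, ∃ n : ℕ, ∀ w : ℕ, ∃ c : ℝ, 0 < c ∧
      ∀ f : Polynomial ℤ, 1 ≤ f.natDegree → f.natDegree ≤ d →
      ∀ X : Finset ℤ, X.Nonempty → (∀ x ∈ X, n ≤ (X.filter fun y => |y - x| ≤ (w : ℤ)).card) →
      c * (X.card : ℝ) ^ ((k : ℝ) - ε) ≤
        ((Fintype.piFinset fun _ : Fin k => (X.image fun x => f.eval x).erase 0).image
          fun f => ∏ i, f i).card) ∧
    (∀ k : ℕ, 1 ≤ k → ∀ ε : ℝ, 0 < ε → ε < 1 → ∀ d : ℕ, ∃ n : ℕ, ∀ w : ℕ, ∃ C : ℝ,
      ∀ f : Polynomial ℤ, 1 ≤ f.natDegree → f.natDegree ≤ d → ∀ X : Finset ℤ,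
      (((X ×ˢ X).filter fun s => |s.1 - s.2| ≤ (w : ℤ)).card : ℝ) ≤ n * X.card +
        C * (((Fintype.piFinset fun _ : Fin k => (X.image fun x => f.eval x).erase 0).image
          fun f => ∏ i, f i).card : ℝ) ^ (1 / ((k : ℝ) - ε))) ∧
    (∀ k : ℕ, 1 ≤ k → ∀ ε : ℝ, 0 < ε → ε ≤ 1 → ∀ d : ℕ, ∃ n : ℕ, ∀ w : ℕ, ∃ c : ℝ, 0 < c ∧
      ∀ f : Polynomial ℤ, 1 ≤ f.natDegree → f.natDegree ≤ d →
      ∀ T : Finset ℤ, n ≤ T.card → (∀ x ∈ T, ∀ y ∈ T, |x - y| ≤ (w : ℤ)) →
      ∀ S : Finset ℤ, S.Nonempty → ∃ t : Fin k → ℤ, (∀ i, t i ∈ T) ∧
      c * (S.card : ℝ) ^ ((k : ℝ) - ε) ≤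
        ((Fintype.piFinset fun _ : Fin k => S).image
          fun s => ∏ i, f.eval (s i + t i)).card) := by
  classical
  refine ⟨?_, ?_, ?_, ?_⟩
  · intro k hk ε hε hε1
    obtain ⟨δ, hδ, h⟩ := spread k hk ε hε hε1
    refine ⟨δ, hδ, fun m => ?_⟩
    obtain ⟨c, hc, h⟩ := h m
    refine ⟨c, hc, fun A hA h0 P e hT => ?_⟩
    have h1 := h A hA h0 P e fun p hp hpP => by
      have h2 := hT p hp hpP
      have h3 : ∀ a : ℤ, (padicValInt p a : ℤ) = fa a p := by
        intro a
        unfold padicValInt fa
        rw [Nat.factorization_def _ hp]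
      simp only [h3] at h2
      convert h2
    have hcard : (parts P A).card =
        (A.image fun (a : ℤ) (p : P) => a.natAbs.factorization p).card := by
      have e1 : A.image (fun (a : ℤ) (p : P) => a.natAbs.factorization p) =
          (parts P A).image fun v (p : P) => v p := by
        unfold parts
        rw [image_image]
        refine image_congr fun a _ => ?_
        funext p
        simp [fa]
      rw [e1, card_image_of_injOn]
      intro v hv w hw hvw
      unfold parts at hv hw
      rw [mem_coe, mem_image] at hv hw
      obtain ⟨a, -, rfl⟩ := hv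
      obtain ⟨b, -, rfl⟩ := hw
      funext p
      by_cases hp : p ∈ P
      · exact congrFun hvw ⟨p, hp⟩
      · simp only [if_neg hp]
    rw [hcard] at h1
    unfold pk at h1
    convert h1
  · intro k hk ε hε hε1 d
    obtain ⟨n, h⟩ := poly k hk ε hε hε1 d
    refine ⟨n, fun w => ?_⟩
    obtain ⟨c, hc, h⟩ := h w
    refine ⟨c, hc, fun f h1 h2 X hX hr => ?_⟩
    have h3 := h f h1 h2 X hX hr
    unfold pk vals at h3
    convert h3
  · intro k hk ε hε hε1 d
    obtain ⟨n, h⟩ := pairs k hk ε hε hε1 d
    refine ⟨n, fun w => ?_⟩
    obtain ⟨C, h⟩ := h w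
    refine ⟨C, fun f h1 h2 X => ?_⟩
    have h3 := h f h1 h2 X
    unfold pk vals close at h3
    convert h3
  · intro k hk ε hε hε1 d
    obtain ⟨n, h⟩ := polyShifts k hk ε hε hε1 d
    refine ⟨n, fun w => ?_⟩
    obtain ⟨c, hc, h⟩ := h w
    refine ⟨c, hc, fun f h1 h2 T hT hTw S hS => ?_⟩
    obtain ⟨t, ht, h3⟩ := h f h1 h2 T hT hTw S hS
    refine ⟨t, ht, ?_⟩
    convert h3

end Pool.Agent.Results.MP_120218_co.SpreadValuations
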